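import Pool.Agent.Helper20.MB.DefsG

/-!
# MB-7a: elementary properties of the gauge transformation
-/

open Filter Metric Module Set
open scoped Topology ContDiff RealInnerProductSpace Manifold

set_option maxSynthPendingDepth 3

namespace Pool.Agent.Helper30.MB
open Pool.Agent.Helper20.PC Pool.Agent.Helper20.HP Pool.Agent.Helper20.M8 Pool.Agent.Helper20.MB

section
variable {V Y : Type*} [NormedAddCommGroup V] [NormedSpace ℝ V] [FiniteDimensional ℝ V]
  [NormedAddCommGroup Y] [NormedSpace ℝ Y] [FiniteDimensional ℝ Y] {D : BD V Y} {x : V} {y : Y}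

/-- the quadratic part of the gauge transformation. -/
noncomputable def gauQ (A : V → V →L[ℝ] Y →L[ℝ] Y) (x : V) : V →L[ℝ] V →L[ℝ] Y →L[ℝ] Y :=
  (ContinuousLinearMap.compL ℝ Y Y Y).bilinearComp (A x) (A x) - fderiv ℝ A x

omit [FiniteDimensional ℝ V] [FiniteDimensional ℝ Y] in
theorem gauQ_apply (A : V → V →L[ℝ] Y →L[ℝ] Y) (x ξ ζ : V) :
    gauQ A x ξ ζ = (A x ξ) ∘L (A x ζ) - fderiv ℝ A x ξ ζ := by
  simp [gauQ]

omit [FiniteDimensional ℝ V] [FiniteDimensional ℝ Y] in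
theorem gau_eq (A : V → V →L[ℝ] Y →L[ℝ] Y) (x : V) :
    gau A x = fun x' => ContinuousLinearMap.id ℝ Y - A x (x' - x) +
      (1/2 : ℝ) • gauQ A x (x' - x) (x' - x) := by
  funext x'
  rw [gau, gauQ_apply]

theorem gau_contDiff (A : V → V →L[ℝ] Y →L[ℝ] Y) (x : V) : ContDiff ℝ ∞ (gau A x) := by
  rw [gau_eq]
  have h : ContDiff ℝ ∞ (fun x' : V => x' - x) := contDiff_id.sub contDiff_const
  have h1 : ContDiff ℝ ∞ (fun x' : V => A x (x' - x)) := (A x).contDiff.comp h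
  have h2 : ContDiff ℝ ∞ (fun x' : V => gauQ A x (x' - x)) := (gauQ A x).contDiff.comp h
  have h3 : ContDiff ℝ ∞ (fun x' : V => gauQ A x (x' - x) (x' - x)) := h2.clm_apply h
  exact (contDiff_const.sub h1).add (h3.const_smul (1/2 : ℝ))

theorem gau_self (A : V → V →L[ℝ] Y →L[ℝ] Y) (x : V) : gau A x x = ContinuousLinearMap.id ℝ Y := by
  rw [gau_eq]
  simp

theorem gau_fderiv_eq (A : V → V →L[ℝ] Y →L[ℝ] Y) (x : V) :
    fderiv ℝ (gau A x) = fun x' => - A x +
      (1/2 : ℝ) • (gauQ A x + (gauQ A x).flip) (x' - x) := by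
  funext x'
  have h : HasFDerivAt (fun x' : V => x' - x) (ContinuousLinearMap.id ℝ V) x' :=
    (hasFDerivAt_id x').sub_const x
  have h1 : HasFDerivAt (fun x' : V => A x (x' - x)) ((A x) ∘L (ContinuousLinearMap.id ℝ V)) x' :=
    (A x).hasFDerivAt.comp x' h
  have h2 := (gauQ A x).hasFDerivAt_of_bilinear h h
  have h3 := ((hasFDerivAt_const (ContinuousLinearMap.id ℝ Y) x').sub h1).add
    (h2.const_smul (1/2 : ℝ))
  rw [gau_eq]
  refine h3.fderiv.trans ?_
  ext ζ p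
  simp [ContinuousLinearMap.precompR, ContinuousLinearMap.precompL]

theorem gau_fderiv (A : V → V →L[ℝ] Y →L[ℝ] Y) (x ζ : V) : fderiv ℝ (gau A x) x ζ = - A x ζ := by
  rw [gau_fderiv_eq]
  simp

theorem gau_fderiv2 (A : V → V →L[ℝ] Y →L[ℝ] Y) (x ξ ζ : V) :
    fderiv ℝ (fderiv ℝ (gau A x)) x ξ ζ = (1/2 : ℝ) • ((A x ξ) ∘L (A x ζ) + (A x ζ) ∘L (A x ξ)
      - fderiv ℝ A x ξ ζ - fderiv ℝ A x ζ ξ) := by
  have h : HasFDerivAt (fun x' : V => x' - x) (ContinuousLinearMap.id ℝ V) x :=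
    (hasFDerivAt_id x).sub_const x
  have h1 := ((gauQ A x + (gauQ A x).flip).hasFDerivAt.comp x h).const_smul (1/2 : ℝ)
  have h2 := (hasFDerivAt_const (- A x) x).add h1
  rw [gau_fderiv_eq]
  have h3 : fderiv ℝ (fun x' => - A x + (1/2 : ℝ) • (gauQ A x + (gauQ A x).flip) (x' - x)) x =
      0 + (1/2 : ℝ) • ((gauQ A x + (gauQ A x).flip) ∘L ContinuousLinearMap.id ℝ V) := h2.fderiv
  rw [h3]
  simp only [zero_add, ContinuousLinearMap.comp_id, _root_.smul_apply,
    _root_.add_apply, ContinuousLinearMap.flip_apply, gauQ_apply]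
  congr 1
  abel

theorem gau_inv (A : V → V →L[ℝ] Y →L[ℝ] Y) (x : V) :
    (∀ᶠ x' in 𝓝 x, (gau A x x').IsInvertible) ∧ ContDiffAt ℝ ∞ (fun x' => (gau A x x').inverse) x := by
  have : CompleteSpace Y := FiniteDimensional.complete ℝ Y
  have h0 : gau A x x = ((ContinuousLinearEquiv.refl ℝ Y : Y ≃L[ℝ] Y) : Y →L[ℝ] Y) := by
    rw [gau_self]
    rfl
  have hc : ContDiffAt ℝ ∞ (gau A x) x := (gau_contDiff A x).contDiffAt
  constructor
  · have h1 := (ContinuousLinearEquiv.refl ℝ Y).nhds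
    rw [← h0] at h1
    filter_upwards [hc.continuousAt.eventually h1] with x' hx'
    exact hx'
  · have h2 : ContDiffAt ℝ ∞ (ContinuousLinearMap.inverse : (Y →L[ℝ] Y) → (Y →L[ℝ] Y))
        (gau A x x) := by
      rw [h0]
      exact contDiffAt_map_inverse (ContinuousLinearEquiv.refl ℝ Y)
    exact h2.comp x hc

end

end Pool.Agent.Helper30.MB
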